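import Pool.Agent.Work.MP_88b7aa_gt.D.C699.F0
import Pool.Agent.Work.MP_88b7aa_gt.D.C699.F1
import Pool.Agent.Work.MP_88b7aa_gt.D.C699.F2

/-! The class is done. -/

set_option autoImplicit false

namespace Pool.Agent.Work.MP_88b7aa_gt.D.C699

open Pool.Agent.Work.MP_88b7aa_gt.PQ
open Pool.Agent.Work.MP_88b7aa_gt.Kc

theorem g0 : CGood (KS (.ex 6) (.iv 9 0) (.iv 9 0)) H.k ⟨243764480361061, 0, 0, 0, 0, 8⟩ ⟨265497698369536, 0, 0, 1065151889408, 0, 0⟩ ⟨272953761595392, 0, 8521215115264, 0, 0, 0⟩ ⟨117471147196416, 0, -594869747712, 285749542912, 0, 0⟩ :=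
  mC_good H_ok M0.k LB.nil LC.nil

theorem g1 : CGood (KS (.ex 6) (.iv 9 0) (.iv 9 0)) H.k ⟨243764480361061, 0, 0, 0, 0, 8⟩ ⟨267628002148352, 0, 0, 1065151889408, 0, 0⟩ ⟨272953761595392, 0, 8521215115264, 0, 0, 0⟩ ⟨114686519410688, 0, -657767530496, 293647417344, 0, 0⟩ :=
  mC_good H_ok M1.k LB.nil LC.nil

theorem g2 : CGood (KS (.ex 6) (.iv 9 0) (.iv 9 0)) H.k ⟨243764480361061, 0, 0, 0, 0, 8⟩ ⟨270823457816576, 0, 0, 2130303778816, 0, 0⟩ ⟨268693154037760, 0, 4260607557632, 0, 0, 0⟩ ⟨117097652813824, 0, -378812760064, 621646184448, 0, 0⟩ :=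
  mC_good H_ok M2.k LB.nil LC.nil

theorem g3 : CGood (KS (.ex 6) (.iv 9 0) (.iv 9 0)) H.k ⟨243764480361061, 0, 0, 0, 0, 8⟩ ⟨268693154037760, 0, 0, 4260607557632, 0, 0⟩ ⟨272953761595392, 0, 8521215115264, 0, 0, 0⟩ ⟨114980166828032, 0, -657767530496, 1174589669376, 0, 0⟩ :=
  mC_good H_ok M3.k LB.nil (LC.cons g0 (LC.cons g1 (LC.cons g2 LC.nil)))

theorem g4 : CGood (KS (.ex 6) (.iv 9 0) (.iv 9 0)) H.k ⟨243764480361061, 0, 0, 0, 0, 8⟩ ⟨274018913484800, 0, 0, 1065151889408, 0, 0⟩ ⟨268693154037760, 0, 4260607557632, 0, 0, 0⟩ ⟨116105045606400, 0, -385909522432, 308398784512, 0, 0⟩ :=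
  mC_good H_ok M4.k LB.nil LC.nil

theorem g5 : CGood (KS (.ex 6) (.iv 9 0) (.iv 9 0)) H.k ⟨243764480361061, 0, 0, 0, 0, 8⟩ ⟨276149217263616, 0, 0, 1065151889408, 0, 0⟩ ⟨272953761595392, 0, 8521215115264, 0, 0, 0⟩ ⟨114575445852160, 0, -747961843712, 305785733120, 0, 0⟩ :=
  mC_good H_ok M5.k LB.nil LC.nil

theorem g6 : CGood (KS (.ex 6) (.iv 9 0) (.iv 9 0)) H.k ⟨243764480361061, 0, 0, 0, 0, 8⟩ ⟨279344672931840, 0, 0, 2130303778816, 0, 0⟩ ⟨277214369153024, 0, 4260607557632, 0, 0, 0⟩ ⟨120520674639872, 0, -416460832768, 626075369472, 0, 0⟩ :=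
  mC_good H_ok M6.k LB.nil LC.nil

theorem g7 : CGood (KS (.ex 6) (.iv 9 0) (.iv 9 0)) H.k ⟨243764480361061, 0, 0, 0, 0, 8⟩ ⟨275084065374208, 0, 0, 2130303778816, 0, 0⟩ ⟨272953761595392, 0, 8521215115264, 0, 0, 0⟩ ⟨114269660119040, 0, -747961843712, 611571466240, 0, 0⟩ :=
  mC_good H_ok M7.k LB.nil (LC.cons g4 (LC.cons g5 LC.nil))

theorem g8 : CGood (KS (.ex 6) (.iv 9 0) (.iv 9 0)) H.k ⟨243764480361061, 0, 0, 0, 0, 8⟩ ⟨272953761595392, 0, 0, 8521215115264, 0, 0⟩ ⟨272953761595392, 0, 8521215115264, 0, 0, 0⟩ ⟨112542672224256, 0, -747961843712, 2446285864960, 0, 0⟩ :=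
  mC_good H_ok M8.k LB.nil (LC.cons g3 (LC.cons g7 (LC.cons g6 LC.nil)))

theorem g9 : CGood (KS (.ex 6) (.iv 9 0) (.iv 9 0)) H.k ⟨243764480361061, 0, 0, 0, 0, 8⟩ ⟨272953761595392, 0, 0, 8521215115264, 0, 0⟩ ⟨272953761595392, 0, 8521215115264, 0, 0, 0⟩ ⟨0, 0, 0, 0, 0, 0⟩ :=
  mC_good H_ok M9.k LB.nil (LC.cons g8 LC.nil)

theorem done : Done (KS (.ex 6) (.iv 9 0) (.iv 9 0)) := fin (by decide +kernel) g9

end Pool.Agent.Work.MP_88b7aa_gt.D.C699
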